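import Pool.Agent.PST.StmtsK1
import Pool.Agent.Helper76_PSS.EOR
import Pool.Agent.Helper29_PSS.SVH
import Pool.Agent.Helper95_PSS.TOR
import Pool.Agent.Helper71_PSS.CNH
import Pool.Agent.Helper91_PSS.THL

/-! Squad PST, row DEX (helper85): the derivation of an additive invariant function. -/

set_option autoImplicit false

open scoped BigOperators

noncomputable section

namespace Pool.Agent.PST.H85

open Pool.Agent.PFC (tw IsTv)
open Pool.Agent.PFD.D2b (FrR)
open Pool.Agent.PSS Pool.Agent.PST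

theorem dex : DexStmt := by
  intro F V E A K _ _ _ _ _ _ _ φ α lam x y e hper hrf he
  obtain ⟨Ω, _, _, b, c, hfr, hst⟩ := hper
  obtain ⟨e', S', he', -, hstab⟩ := S2.H76.eor F V E A Ω φ α b c ⟨hfr, hst⟩
  obtain ⟨H, hH⟩ := Pool.Agent.PSS.H29.svh S2.H95.tor F V E Ω φ e e' S' he.add he' hstab
  have hH' : ∀ (u v : V) (ω : Ω), H ((u, v) • ω) = H ω + e u - e v := by
    intro u v ω
    rw [hH, he.inv]
  have h1 : e 1 = 0 := by
    have h := he.add 1 1
    rw [mul_one] at h
    exact left_eq_add.1 h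
  have hcn : S2.Cn 0 α e (S2.Nh H b c) := S2.H71.cnh F V A Ω 0 α e H b c hfr
    (fun u v => (S2.cg_zero _ _).2 (he.add u v)) (fun v ω => (S2.cg_zero _ _).2 (by
      rw [hH', h1, add_zero]))
  set N := S2.Nh H b c with hNdef
  have hN1 : ∀ a v, N (a * α v) = N a * α v + e v • (a * α v) :=
    fun a v => (S2.cg_zero _ _).1 (hcn.lin a v)
  have hN2 : ∀ u a, N (α u * a) - α u * N a = e u • (α u * a) := by
    intro u b'
    rw [hNdef, S2.nh_apply, S2.nh_apply, Finset.mul_sum]
    have e1 : ∑ ω, (c ω (α u * b') * H ω) • b ω =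
        ∑ ω, (c ω b' * H ((u, (1 : V)) • ω)) • (α u * b ω) := by
      rw [← Equiv.sum_comp (MulAction.toPerm ((u, (1 : V)) : V × V))]
      refine Finset.sum_congr rfl fun ω _ => ?_
      change (c ((u, (1 : V)) • ω) (α u * b') * H ((u, (1 : V)) • ω)) •
        b ((u, (1 : V)) • ω) = _
      have h1 := hfr.1 (u, 1) ω
      change b ((u, (1 : V)) • ω) = α u * (b ω * α 1⁻¹) at h1
      rw [inv_one, map_one, mul_one] at h1
      have h2 := hfr.2.1 (u, 1) ω b'
      change c ((u, (1 : V)) • ω) (α u * (b' * α 1⁻¹)) = c ω b' at h2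
      rw [inv_one, map_one, mul_one] at h2
      rw [h1, h2]
    rw [e1, ← Finset.sum_sub_distrib]
    have e2 : e u • (α u * b') = ∑ ω, (c ω b' * e u) • (α u * b ω) := by
      conv_lhs => rw [← hfr.2.2 b']
      rw [Finset.mul_sum, Finset.smul_sum]
      refine Finset.sum_congr rfl fun ω _ => ?_
      rw [mul_smul_comm, smul_smul, mul_comm]
    rw [e2]
    refine Finset.sum_congr rfl fun ω _ => ?_
    rw [mul_smul_comm, ← sub_smul, ← mul_sub, hH', h1]
    congr 2
    ring
  let D : A →ₗ[F] A := ∑ k, (LinearMap.mulRight F (y k)).comp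
    (N.comp (LinearMap.mulRight F (x k)) - LinearMap.mulRight F (N (x k)))
  have hD : ∀ a, D a = ∑ k, (N (a * x k) - a * N (x k)) * y k := by
    intro a
    simp only [D, LinearMap.sum_apply, LinearMap.comp_apply, LinearMap.sub_apply,
      LinearMap.mulRight_apply]
  refine ⟨D, ?_, ?_⟩
  · intro a b'
    let f : A →ₗ[F] A := N.comp (LinearMap.mulLeft F a) - (LinearMap.mulLeft F a).comp N
    have hf : ∀ z, f z = N (a * z) - a * N z := fun z => rfl
    have hfl : S2.RLq 0 α f := by
      intro z v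
      rw [S2.cg_zero, hf, hf, ← mul_assoc, hN1, hN1, mul_add, mul_smul_comm, sub_mul,
        ← mul_assoc, ← mul_assoc]
      abel
    have hthl := (S2.cg_zero _ _).1 (S2.H91.thl F V A K 0 α lam x y f hrf hfl b')
    have e1 : (∑ k, f (x k) * y k) = D a := by
      rw [hD]
      exact Finset.sum_congr rfl fun k _ => by rw [hf]
    rw [e1] at hthl
    rw [← hthl, hD (a * b'), hD b', Finset.mul_sum, ← Finset.sum_add_distrib]
    refine Finset.sum_congr rfl fun k _ => ?_
    rw [hf, ← mul_assoc a b' (x k), ← mul_assoc a _ (y k), ← add_mul]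
    congr 1
    rw [mul_sub, mul_assoc a b' (N (x k))]
    abel
  · intro v
    rw [hD]
    have e1 : ∀ k, (N (α v * x k) - α v * N (x k)) * y k = e v • (α v * (x k * 1 * y k)) := by
      intro k
      rw [hN2, smul_mul_assoc, mul_one, mul_assoc]
    rw [Finset.sum_congr rfl fun k _ => e1 k, ← Finset.smul_sum, ← Finset.mul_sum]
    rfl

end Pool.Agent.PST.H85
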