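import Pool.Agent.PST.StmtsDR
import Pool.Agent.Helper91_PSS.THL

/-! Squad PST, row DGX (helper85): the transfer is a derivation. -/

set_option autoImplicit false

open scoped BigOperators

noncomputable section

namespace Pool.Agent.PST.H85

open Pool.Agent.PSS Pool.Agent.PST
open Pool.Agent.PSS.S2 (PrD Nh Cn CV)

theorem dgx : DgxStmt := by
  intro F V A K _ _ _ _ _ _ α lam x y χ N X hrf hN hX a b'
  have hN1 : ∀ a v, N (a * α v) = N a * α v + χ v • (a * α v) :=
    fun a v => (S2.cg_zero _ _).1 (hN.lin a v)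
  have hG : ∀ a, Gx X x y N a = ∑ k, (N (a * x k) - a * N (x k)) * (X * y k) := by
    intro a
    simp [Gx, LinearMap.sum_apply, LinearMap.comp_apply, LinearMap.sub_apply, mul_assoc]
  let f : A →ₗ[F] A := (LinearMap.mulRight F X).comp
    (N.comp (LinearMap.mulLeft F a) - (LinearMap.mulLeft F a).comp N)
  have hf : ∀ z, f z = (N (a * z) - a * N z) * X := fun z => rfl
  have hfl : S2.RLq 0 α f := by
    intro z v
    have hc : X * α v = α v * X := (hX v).symm
    have e0 : N (a * (z * α v)) - a * N (z * α v) = (N (a * z) - a * N z) * α v := by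
      rw [← mul_assoc, hN1, hN1, mul_add, mul_smul_comm, sub_mul, ← mul_assoc, ← mul_assoc]
      abel
    rw [S2.cg_zero, hf, hf, e0, mul_assoc, ← hc, ← mul_assoc]
  have hthl := (S2.cg_zero _ _).1 (S2.H91.thl F V A K 0 α lam x y f hrf hfl b')
  have e1 : (∑ k, f (x k) * y k) = Gx X x y N a := by
    rw [hG]
    exact Finset.sum_congr rfl fun k _ => by rw [hf, mul_assoc _ X]
  rw [e1] at hthl
  rw [← hthl, hG (a * b'), hG b', Finset.mul_sum, ← Finset.sum_add_distrib]
  refine Finset.sum_congr rfl fun k _ => ?_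
  rw [hf, mul_assoc _ X (y k), ← mul_assoc a b' (x k), ← mul_assoc a _ (X * y k), ← add_mul]
  congr 1
  rw [mul_sub, mul_assoc a b' (N (x k)), mul_assoc a b' (x k)]
  abel

end Pool.Agent.PST.H85
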