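import Pool.Agent.PST.StmtsGS

/-! Squad PST, row REA (helper85): a commutative group of operators has a regular element. -/

set_option autoImplicit false

open scoped BigOperators

noncomputable section

namespace Pool.Agent.PST.H85

open Pool.Agent.PST

/-- the elements of `E` which fix `q` -/
def St {V : Type} [CommGroup V] (E : Subgroup (MulAut V)) (q : V) : Subgroup (MulAut V) where
  carrier := {a | a ∈ E ∧ a q = q}
  one_mem' := ⟨E.one_mem, rfl⟩
  mul_mem' := by
    rintro a b ⟨ha, ha'⟩ ⟨hb, hb'⟩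
    refine ⟨E.mul_mem ha hb, ?_⟩
    rw [MulAut.mul_apply, hb', ha']
  inv_mem' := by
    rintro a ⟨ha, ha'⟩
    refine ⟨E.inv_mem ha, ?_⟩
    calc a⁻¹ q = a⁻¹ (a q) := by rw [ha']
      _ = q := by rw [← MulAut.mul_apply, inv_mul_cancel, MulAut.one_apply]

theorem rea : ReaStmt := by
  classical
  intro ℓ V _ _ E Q hℓ hV hE hQ hcm
  have : Fact ℓ.Prime := ⟨hℓ⟩
  obtain ⟨q, hqQ, hmin⟩ := Set.exists_min_image (Q : Set V) (fun q => Nat.card (St E q))
    (Set.toFinite _) ⟨1, Q.one_mem⟩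
  refine ⟨q, hqQ, ?_⟩
  intro c hcE hcq w hw
  by_contra hcw
  let C := St E q
  have hCE : C ≤ E := fun a ha => ha.1
  have hdvd : Nat.card C ∣ Nat.card E := Subgroup.card_dvd_of_le hCE
  have hcop : (Nat.card V).Coprime (Nat.card C) := by
    obtain ⟨k, hk⟩ := IsPGroup.iff_card.1 hV
    rw [hk]
    apply Nat.Coprime.pow_left
    rw [hℓ.coprime_iff_not_dvd]
    exact fun h => hE (h.trans hdvd)
  obtain ⟨z, hz⟩ : ∃ z : ℤ, ∀ v : V, (v ^ z) ^ (Nat.card C) = v :=
    ⟨(Nat.card V).gcdB (Nat.card C), fun v => (powCoprime hcop).right_inv v⟩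
  have : Fintype C := Fintype.ofFinite C
  let p : V →* V := ∏ c : C, ((c : MulAut V).toMonoidHom).comp (zpowGroupHom z)
  have hp : ∀ v, p v = ∏ c : C, (c : MulAut V) (v ^ z) := by
    intro v
    simp only [p, MonoidHom.finsetProd_apply]
    rfl
  have hpQ : ∀ v ∈ Q, p v ∈ Q := by
    intro v hv
    rw [hp]
    exact Q.prod_mem fun c _ => hQ _ (hCE c.2) _ (Q.zpow_mem hv z)
  have hpc : ∀ c : C, ∀ v, (c : MulAut V) (p v) = p v := by
    intro c v
    rw [hp, map_prod]
    exact Fintype.prod_equiv (Equiv.mulLeft c) _ _ fun c' => rfl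
  have hpf : ∀ v, (∀ c : C, (c : MulAut V) v = v) → p v = v := by
    intro v hv
    rw [hp, Finset.prod_congr rfl fun c _ => by rw [map_zpow, hv c], Finset.prod_const,
      Finset.card_univ, ← Nat.card_eq_fintype_card]
    exact hz v
  have hpa : ∀ a ∈ E, ∀ v ∈ Q, a (p v) = p (a v) := by
    intro a ha v hv
    rw [hp, hp, map_prod]
    refine Finset.prod_congr rfl fun c _ => ?_
    rw [hcm a ha c (hCE c.2) _ (Q.zpow_mem hv z), map_zpow a]
  have hpq : p q = q := hpf q fun c => c.2.2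
  let y : V := w * (p w)⁻¹
  have hyQ : y ∈ Q := Q.mul_mem hw (Q.inv_mem (hpQ w hw))
  have hpy : p y = 1 := by
    change p (w * (p w)⁻¹) = 1
    rw [map_mul, map_inv, hpf (p w) (fun c => hpc c w), mul_inv_cancel]
  have hcC : c ∈ C := ⟨hcE, hcq⟩
  have hcy : c y ≠ y := by
    intro h
    apply hcw
    change c (w * (p w)⁻¹) = w * (p w)⁻¹ at h
    rw [map_mul, map_inv, hpc ⟨c, hcC⟩ w] at h
    exact mul_right_cancel h
  have hle : St E (q * y) ≤ C := by
    intro a ha
    refine ⟨ha.1, ?_⟩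
    have h1 : p (q * y) = q := by rw [map_mul, hpq, hpy, mul_one]
    have h2 := hpa a ha.1 (q * y) (Q.mul_mem hqQ hyQ)
    rw [ha.2, h1] at h2
    exact h2
  have heq := Subgroup.eq_of_le_of_card_ge hle (hmin (q * y) (Q.mul_mem hqQ hyQ))
  have hc2 : c ∈ St E (q * y) := by
    rw [heq]
    exact hcC
  apply hcy
  have h3 := hc2.2
  rw [map_mul, hcq] at h3
  exact mul_left_cancel h3

end Pool.Agent.PST.H85
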