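import Pool.Agent.PST.StmtsGE
import Pool.Agent.PFD.Witt

/-! Squad PST, row DTQ (helper85): every algebra of the class has a regular deformation with a lift. -/

set_option autoImplicit false

noncomputable section

namespace Pool.Agent.PST.H85

open scoped BigOperators PowerSeries TensorProduct
open Pool.Agent.PFC (tw IsTv)
open Pool.Agent.PFD.D2 (Cdv FibG wittCdv)
open Pool.Agent.PFD.D2b (FrR)
open Pool.Agent.PSS Pool.Agent.PST
open Dm (cst)

theorem dtq (hLFT : LftStmt) (hGNQ : GnqStmt) (hPER : PerStmt) (hSPF : SpfStmt)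
    (hFRE : FreStmt) (hRMP : RmpStmt) (hUNX : S3.UnxStmt) : DtqStmt := by
  intro ℓ _ F V E A _ _ _ _ _ _ _ _ _ φ α W _ ψ hV hE hch hrs hCl
  have := hCl.fin
  obtain ⟨lam0, K0, _, x0, y0, hRF0, u, hu⟩ := hCl.rt
  obtain ⟨Ω, _, _, b, cc, hfr, hst⟩ := hCl.per
  have hu1 : u * rt x0 y0 1 = 1 := by
    rw [rt]
    simpa using hu
  let R := WittVector ℓ F
  let c : Cdv R F := wittCdv ℓ F
  have : CharZero R := Pool.Agent.PFD.D2.witt_charZero ℓ F
  have hcπ : c.π = (ℓ : R) := rfl
  obtain ⟨A', _, _, _, _, f, α', lam', x', y', b', cc', u', L, hu'⟩ :=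
    hLFT R F V A K0 Ω c α lam0 x0 y0 b cc u hCl.fin hRF0 hfr hu1
  obtain ⟨D', D₀, θ, Λ, Λ₀, κ', _, xs, ys, hm, hθof, hθw, hθs, hRFs, hΛ0, hΛr, hRF₀, hreg,
    KK, BB, jK, jZ, jR, jB, jA, jM, C, P, m, trv, mm⟩ :=
    hGNQ ℓ R F V E A' A K0 Ω φ W c f α lam0 x0 y0 b cc α' lam' x' y' b' cc' u' hV hE hcπ hch hCl
      hst hfr hRF0 L hu'
  obtain ⟨π₀, hπof, hπsc, hπs, hπw, hπk⟩ := hSPF F W A (aw α W) D₀
  obtain ⟨hfin, hfree⟩ := hFRE F W A (aw α W) D₀
  obtain ⟨ψ', hψof, hψsm, hψw, hψs, hψk⟩ := hRMP R F W A' A (aw α' W) (aw α W) D' D₀ f.q c.κ f.sc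
    (fun w => L.qa w) hm
  have hθψ : θ = ψ' := by
    refine RingHom.ext fun z => ?_
    rw [← D'.of_sq z, hθof, hψof]
  have hπsq : ∀ a : D₀.R, π₀ a = D₀.sq a 0 := by
    intro a
    conv_lhs => rw [← D₀.of_sq a]
    rw [hπof]
  have hPer : Per F⟦X⟧ ψ D₀.w := hPER F V E A φ W ψ α D₀ hrs hCl.per
  have hunx := hUNX F W E A D₀.R ψ D₀.w π₀ hPer hπs hπk
  have hlr : ∀ a, PowerSeries.constantCoeff (Λ₀ a) = lam0 (π₀ a) := by
    intro a
    choose s hs using f.surj
    have h1 : a = θ (D'.of (fun n => s (D₀.sq a n))) := by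
      rw [hθof]
      conv_lhs => rw [← D₀.of_sq a]
      congr 1
      funext n
      exact (hs _).symm
    conv_lhs => rw [h1]
    rw [hΛr, ← PowerSeries.coeff_zero_eq_constantCoeff_apply, PowerSeries.coeff_map,
      PowerSeries.coeff_zero_eq_constantCoeff_apply, hΛ0, L.ql, hs, hπsq]
  refine ⟨D₀.R, κ', K0, Ω, inferInstance, inferInstance, hfin, hfree, inferInstance,
    inferInstance, inferInstance, inferInstance,
    D₀.w, π₀, Λ₀, lam0, fun k => θ (xs k), fun k => θ (ys k), x0, y0, b, cc, ?_, hfr, hst, ?_⟩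
  · refine ⟨hCl, hch, hrs, hPer, ?_, hπsc, hπs, hπk, hπw, hRF₀, hRF0, hlr, ?_⟩
    · intro e
      obtain ⟨y, y', hyy, hy'y, hyα⟩ := hCl.uni e
      obtain ⟨Y, hY1, hY2⟩ := hunx (D₀.of (cst y)) y' (by rw [hπof]; simpa [cst] using hyy)
        (by rw [hπof]; simpa [cst] using hy'y)
      refine ⟨D₀.of (cst y), Y, hY1, hY2, ?_⟩
      intro w
      rw [Dm.w_mul_of]
      have e1 : D₀.of (cst y) * D₀.w w = D₀.of (cst (y * α w)) := by
        have e2 : D₀.w w = D₀.of (cst (α w)) := rfl
        rw [e2, ← D₀.of_mul]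
        congr 1
        funext n
        rw [Dm.mul]
        rcases n with _ | n
        · have ha : Finset.HasAntidiagonal.antidiagonal 0 = {((0 : ℕ), 0)} := rfl
          rw [ha, Finset.sum_singleton]
          simp only
          rw [ha, Finset.sum_singleton]
          simp only [cst, if_true]
          exact D₀.m0 _ _
        · rw [cst, if_neg (Nat.succ_ne_zero n)]
          refine Finset.sum_eq_zero fun p hp => Finset.sum_eq_zero fun q hq => ?_
          simp only [cst]
          split_ifs with h1 h2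
          · rw [Finset.HasAntidiagonal.mem_antidiagonal] at hp hq
            have : p.1 = n + 1 := by omega
            rw [this]
            exact D₀.m_om_right n w y
          · rw [map_zero]
          · rw [map_zero, LinearMap.zero_apply]
          · rw [map_zero]
      rw [e1]
      congr 1
      funext n
      simp only [cst]
      split_ifs
      · have h1 := hyα w
        show y * α w = α (ψ e w : V) * y
        rw [h1, hrs e w]
      · rw [mul_zero]
    · have hfun : (⇑π₀ : D₀.R → A) = fun Z => D₀.sq Z 0 := funext hπsq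
      rw [hfun]
      exact hreg
  · exact ⟨{
      R := R
      iR := inferInstance
      iD := inferInstance
      iP := inferInstance
      iC := inferInstance
      cv := c
      A' := A'
      iA := inferInstance
      iM := inferInstance
      iF := inferInstance
      iL := inferInstance
      f := f
      α' := α'
      lam' := lam'
      x' := x'
      y' := y'
      b' := b'
      cc' := cc'
      u' := u'
      lft := L
      unt := hu'
      D := D'
      θ := θ
      θs := fun r a => by
        rw [hθψ]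
        exact hψsm r a
      θj := hθs
      θk := fun a ha => hψk c.π f.ker a (by rw [← hθψ]; exact ha)
      θw := hθw
      θq := fun g => by rw [hθof, hπof]
      Λ := Λ
      xs := xs
      ys := ys
      rfs := hRFs
      Λr := hΛr
      xr := fun k => rfl
      yr := fun k => rfl
      Λ0 := hΛ0
      hp := hcπ
      KK := KK
      jK := jK
      jZ := jZ
      jR := jR
      BB := BB
      jB := jB
      jA := jA
      jM := jM
      C := C
      P := P
      m := m
      trv := trv
      mm := mm }⟩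

end Pool.Agent.PST.H85
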