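import Pool.Agent.PST.StmtsET2

/-! Squad PST, row FVP (helper85): the projection onto the span of V. -/

set_option autoImplicit false

open scoped BigOperators

noncomputable section

namespace Pool.Agent.PST.H85

open Pool.Agent.PST Pool.Agent.PST.ET
open Pool.Agent.PFC (Fx BK cj bi tw PS Frm PMid)

theorem fvp : FvpStmt := by
  intro ℓ _ F V H _ _ _ _ _ _ _ α lam hV hF
  let S := MonoidAlgebra F V
  let a : V → F := fun u => lam (α u⁻¹)
  let p : S := ∑ u : V, MonoidAlgebra.single u (a u)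
  let e : F := ∑ u, a u
  have he : e ≠ 0 := by
    have h : e = lam (∑ u, α u) := by
      rw [map_sum]
      exact Fintype.sum_equiv (Equiv.inv V) _ _ fun u => rfl
    rw [h]
    exact hF.nz
  have : CharP S ℓ := charP_of_injective_algebraMap (algebraMap F S).injective ℓ
  obtain ⟨m, hm⟩ := IsPGroup.iff_card.1 hV
  have hpw : ∀ u : V, u ^ (ℓ ^ m) = 1 := by
    intro u
    rw [← hm]
    exact pow_card_eq_one'
  have hp : p ^ (ℓ ^ m) = algebraMap F S (e ^ (ℓ ^ m)) := by
    have h1 : p ^ (ℓ ^ m) = ∑ u : V, (MonoidAlgebra.single u (a u) : S) ^ (ℓ ^ m) :=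
      sum_pow_char_pow ℓ m _ _
    have h2 : e ^ (ℓ ^ m) = ∑ u : V, (a u) ^ (ℓ ^ m) := sum_pow_char_pow ℓ m _ _
    rw [h1, h2, map_sum]
    refine Finset.sum_congr rfl fun u _ => ?_
    rw [MonoidAlgebra.single_pow, hpw]
    rfl
  have hu : IsUnit p := by
    rw [← isUnit_pow_iff (n := ℓ ^ m) (pow_ne_zero _ (Fact.out : ℓ.Prime).ne_zero), hp]
    exact (IsUnit.mk0 _ (pow_ne_zero _ he)).map (algebraMap F S)
  obtain ⟨x, hx⟩ := hu.exists_left_inv
  have hpa : ∀ u, p.coeff u = a u := by
    intro u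
    change (∑ u : V, (MonoidAlgebra.single u (a u) : MonoidAlgebra F V)).coeff u = a u
    rw [MonoidAlgebra.coeff_sum]
    simp only [MonoidAlgebra.coeff_single, Finsupp.finsetSum_apply,
      Finsupp.single_apply, Finset.sum_ite_eq', Finset.mem_univ, if_true]
  refine ⟨∑ w : V, (x.coeff w) • lam.comp (LinearMap.mulLeft F (α w)), ?_, ?_⟩
  · intro v b
    simp only [LinearMap.sum_apply, LinearMap.smul_apply, LinearMap.comp_apply,
      LinearMap.mulLeft_apply]
    refine Finset.sum_congr rfl fun w _ => ?_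
    congr 1
    rw [← mul_assoc, ← map_mul α, mul_comm w v, map_mul α, mul_assoc, hF.sym, mul_assoc]
  · intro v
    simp only [LinearMap.sum_apply, LinearMap.smul_apply, LinearMap.comp_apply,
      LinearMap.mulLeft_apply]
    have h : (x * p).coeff v⁻¹ = (1 : S).coeff v⁻¹ := by rw [hx]
    rw [MonoidAlgebra.coeff_mul_apply_left, Finsupp.sum_fintype _ _ (by simp),
      MonoidAlgebra.one_def, MonoidAlgebra.coeff_single, Finsupp.single_apply] at h
    have h2 : (if (1 : V) = v⁻¹ then (1 : F) else 0) = if v = 1 then 1 else 0 := by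
      by_cases hv : v = 1
      · rw [if_pos hv, if_pos (by rw [hv, inv_one])]
      · rw [if_neg hv, if_neg (fun h' => hv (inv_eq_one.1 h'.symm))]
    rw [h2] at h
    rw [← h]
    refine Finset.sum_congr rfl fun w _ => ?_
    rw [hpa, smul_eq_mul]
    simp only [a]
    rw [mul_inv_rev, inv_inv, inv_inv, mul_comm v w, map_mul α]

end Pool.Agent.PST.H85
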